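import Pool.Agent.Lib.K70.Br
import Pool.Agent.Lib.EXS.RV2

/-! Project K2: the weight, the density and the change of charts. -/

open scoped Classical Topology ContDiff ComplexOrder Matrix ENNReal
open Set MeasureTheory Complex Metric Filter

set_option linter.unusedSectionVars false

noncomputable section

namespace Pool.Agent.Lib.K70

open Pool.Agent.Lib.SV (E)
open Pool.Agent.Lib.HS32 Pool.Agent.Lib.EX Pool.Agent.Lib.EXS Pool.Agent.Lib.ZL
open Pool.Agent.Lib.EX.K19 (Ix)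
open Pool.Agent.Lib.EXS.K32 (lv lm)

variable {n : ℕ} {M : Mf n} {ι : Type} [Fintype ι] [DecidableEq ι]

theorem db_tr {e e' : M.Ch} {x : M.X} {G : M.X → ℂ} (he : e ∈ M.C) (he' : e' ∈ M.C)
    (hx : x ∈ e.source) (hx' : x ∈ e'.source) (h : ContDiffAt ℝ ∞ (G ∘ e.symm) (e x)) (v : E n) :
    db (G ∘ e'.symm) (e' x) v = db (G ∘ e.symm) (e x) (M.J e e' x *ᵥ v) := by
  have t1 := ((mTR n M).2.1 e he e' he' x hx hx').1
  have pt : (e ∘ e'.symm) (e' x) = e x := by rw [Function.comp_apply, e'.left_inv hx']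
  simp only [db, Mf.J, dzb_congr (K32.ev_tr G hx hx'),
    ((mCHN n _ _ t1).2.2.2.2.2.2.2.2.2.1 _ (by rw [pt]; exact cd_diff h) _).2,
    pt, Matrix.mulVec, dotProduct, star_sum, star_mul', Finset.mul_sum, Finset.sum_mul]
  rw [Finset.sum_comm]
  exact Finset.sum_congr rfl fun _ _ => Finset.sum_congr rfl fun _ _ => by ring

theorem nq_tr {e e' : M.Ch} {x : M.X} {T : M.Fam (Mat n)} (hT : M.Ten T) (he : e ∈ M.C)
    (he' : e' ∈ M.C) (hx : x ∈ e.source) (hx' : x ∈ e'.source) (v : E n) :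
    nq (T e' (e' x)) v = nq (T e (e x)) (M.J e e' x *ᵥ v) := by
  rw [hT.cmp e he e' he' x hx hx', BBD.nq_conj]

variable [M.Cpt] {D : Ad M ι}

theorem lint_glue {μ ν : Measure M.X} {ρ : M.X → ℝ≥0∞}
    (h : ∀ d (F : M.X → ℝ≥0∞),
      ∫⁻ x in (D.e d).source, F x ∂μ = ∫⁻ x in (D.e d).source, ρ x * F x ∂ν)
    (F : M.X → ℝ≥0∞) : ∫⁻ x, F x ∂μ = ∫⁻ x, ρ x * F x ∂ν := by
  obtain ⟨x⟩ : Nonempty M.X := inferInstance
  have : Nonempty D.A := ⟨(GLU.ex_ch D x).choose⟩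
  obtain ⟨f, hf⟩ := exists_surjective_nat D.A
  have m0 : ∀ k, MeasurableSet (D.e (f k)).source := fun k => (D.e _).open_source.measurableSet
  have m1 := MeasurableSet.disjointed m0
  have u : ⋃ k, disjointed (fun k => (D.e (f k)).source) k = univ := by
    rw [iUnion_disjointed, eq_univ_iff_forall]
    intro y
    obtain ⟨d, hd⟩ := GLU.ex_ch D y
    obtain ⟨k, rfl⟩ := hf d
    exact mem_iUnion.2 ⟨k, hd⟩
  have key : ∀ (η : Measure M.X) (G : M.X → ℝ≥0∞), ∫⁻ x, G x ∂η = ∑' k, ∫⁻ x in (D.e (f k)).source,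
      (disjointed (fun k => (D.e (f k)).source) k).indicator G x ∂η := fun η G => by
    rw [← setLIntegral_univ, ← u, lintegral_iUnion m1 (disjoint_disjointed _)]
    refine tsum_congr fun k => ?_
    rw [lintegral_indicator (m1 k), Measure.restrict_restrict (m1 k),
      inter_eq_left.2 (disjointed_subset _ k)]
  rw [key μ, key ν]
  refine tsum_congr fun k => (h _ _).trans (lintegral_congr fun y => ?_)
  rw [indicator_mul_right]

/-- The data of a Kähler metric and of a pluricanonical form. -/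
structure Dat (D : Ad M ι) where
  g : M.Fam (Mat n)
  μ : Measure M.X
  m : ℕ
  l : ι → ℤ
  w : D.A → E n → ℂ
  P : ι → ℤ
  kae : M.Kae g
  m0 : 0 < m
  whol : D.All fun d z => DifferentiableAt ℂ (w d) z
  wne : D.All fun d z => w d z ≠ 0
  wc : D.Ov fun b d x => w d (D.e d x) = w b (D.e b x) * D.um l b d x * (D.J b d x).det ^ m
  eta : IsEta D l m w μ

theorem log_um (K : ι → ℤ) {a b : D.A} {x : M.X} (ha : x ∈ (D.e a).source)
    (hb : x ∈ (D.e b).source) :
    Real.log (normSq (D.um K a b x)) = ∑ i, K i * Real.log (normSq (D.u a b i x)) := by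
  rw [Ad.um, map_prod, Real.log_prod fun i _ => (normSq_pos.2 (zpow_ne_zero _
    (D.une a b i x ha hb))).ne']
  exact Finset.sum_congr rfl fun i _ => by rw [map_zpow₀, Real.log_zpow]

theorem gf_tr (i : ι) {a b : D.A} {x : M.X} (ha : x ∈ (D.e a).source) (hb : x ∈ (D.e b).source) :
    PW.gf D b i (D.e b x) = PW.gf D a i (D.e a x) * normSq (D.u a b i x) := by
  rw [PW.gf, PW.gf, (D.e a).left_inv ha, (D.e b).left_inv hb, Finset.sum_mul]
  refine Finset.sum_congr rfl fun c _ => ?_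
  by_cases hc : D.χ c x = 0
  · rw [hc, zero_mul, zero_mul, zero_mul]
  · rw [D.umul c a b i x (D.supp c x hc).1 ha hb, map_mul, mul_assoc]

namespace Dat

variable (Y : Dat D) {a b : D.A} {x : M.X} {z : E n}

/-- The coefficients of the singular part. -/
def r (i : ι) : ℝ := Y.P i - Y.l i / Y.m

/-- The weight in a chart. -/
def fi (a : D.A) (z : E n) : ℝ := Real.log (Y.g (D.e a) z).det.re -
  ∑ i, Y.r i * Real.log (PW.gf D a i z) - 1 / Y.m * Real.log (normSq (Y.w a z))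

theorem wt1 : M.Wt 1 fun e z => Real.log (Y.g e z).det.re :=
  (mINV n M Y.g Y.kae.toMet).2.2.2.2.2.2.1

theorem w_hol (hz : z ∈ B2 n) : HolN (Y.w a) z :=
  (isOpen_ball.eventually_mem hz).mono fun y hy => Y.whol a y hy

theorem gf_log (i : ι) (hz : z ∈ B2 n) : ContDiffAt ℝ ∞ (fun y => Real.log (PW.gf D a i y)) z :=
  (PW.gf_sm D i hz).log (PW.gf_pos D i hz).ne'

theorem fi_sm (hz : z ∈ B2 n) : ContDiffAt ℝ ∞ (Y.fi a) z :=
  ((Y.wt1.sm _ (D.mem a) z (K32.tg hz)).sub (ContDiffAt.sum fun i _ =>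
    contDiffAt_const.mul (gf_log i hz))).sub
      (contDiffAt_const.mul (K32.lv_log (Y.w_hol hz) (Y.wne a z hz)).1)

theorem fi_cmp (ha : x ∈ (D.e a).source) (hb : x ∈ (D.e b).source) :
    Y.fi b (D.e b x) = Y.fi a (D.e a x) + Real.log (normSq (D.um (-Y.P) a b x)) := by
  have h1 := Y.wt1.cmp _ (D.mem a) _ (D.mem b) x ha hb
  have h2 := Y.wc a b x ha hb
  have h3 := Y.wne b _ (TRF.mem_B D hb)
  have h4 : (Y.m : ℝ) ≠ 0 := Nat.cast_ne_zero.2 Y.m0.ne'
  beta_reduce at h1 h2 h3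
  rw [h2] at h3
  have h5 : ∀ i, Real.log (PW.gf D b i (D.e b x)) =
      Real.log (PW.gf D a i (D.e a x)) + Real.log (normSq (D.u a b i x)) := fun i => by
    rw [gf_tr i ha hb, Real.log_mul (PW.gf_pos D i (TRF.mem_B D ha)).ne'
      (normSq_pos.2 (D.une a b i x ha hb)).ne']
  have n1 := normSq_pos.2 (left_ne_zero_of_mul h3)
  have n2 := normSq_pos.2 (right_ne_zero_of_mul h3)
  rw [map_mul] at n1
  rw [fi, fi, h1, h2, map_mul, map_mul, Real.log_mul n1.ne' n2.ne', Real.log_mul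
    (left_ne_zero_of_mul n1.ne') (right_ne_zero_of_mul n1.ne'), map_pow, Real.log_pow,
    log_um _ ha hb, log_um _ ha hb]
  simp only [h5, r, mul_add, sub_mul, Finset.sum_add_distrib, Finset.sum_sub_distrib,
    Pi.neg_apply, Int.cast_neg, neg_mul, Finset.sum_neg_distrib, Finset.mul_sum, Ad.J,
    one_div_mul_eq_div, mul_div_right_comm, div_self h4]
  ring

/-- The weight. -/
def φ : (rf D).Fam ℝ := (ix D).fam fun a x => Y.fi a (D.e a x)

theorem fi_rd (ha : x ∈ (D.e a).source) :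
    (fun y => Y.fi a (D.e a y)) ∘ (D.e a).symm =ᶠ[𝓝 (D.e a x)] Y.fi a :=
  (isOpen_ball.eventually_mem (TRF.mem_B D ha)).mono fun w hw => by
    simp only [Function.comp_apply, TRF.rinv D hw]

theorem φ_wt : (rf D).WtC (coc D Y.P).co Y.φ :=
  (coc D Y.P).wt (fun _ _ hx => (Y.fi_sm (TRF.mem_B D hx)).congr_of_eventuallyEq (Y.fi_rd hx))
    fun _ _ _ h1 h2 => Y.fi_cmp h1 h2

end Dat

/-- The chosen chart. -/
def ce (D : Ad M ι) (x : M.X) : M.Ch := (rf D).ch x

theorem ce_mem (x : M.X) : ce D x ∈ M.C := (Mf.ch_mem (M := rf D) x).1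

theorem mem_ce (x : M.X) : x ∈ (ce D x).source := Mf.mem_ch (M := rf D) x

/-- The small chart that contains the chosen chart. -/
def ia (D : Ad M ι) (x : M.X) : D.A := (ix D).ix ((rf D).ch x)

theorem ia_mem (x : M.X) : x ∈ (D.e (ia D x)).source :=
  (ix D).sub _ (Mf.ch_mem (M := rf D) x) (Mf.mem_ch (M := rf D) x)

namespace Dat

variable (Y : Dat D) {a b : D.A} {x : M.X} {z : E n}

theorem ev_φ (x : M.X) : (rf D).ev Y.φ x = Y.fi (ia D x) (D.e (ia D x) x) :=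
  Ix.fam_at (X := ix D) (fun a x => Y.fi a (D.e a x)) (Mf.mem_ch (M := rf D) x)

/-- The norm of the canonical section. -/
def ka (x : M.X) : ℝ :=
  normSq (xm (D.c (ia D x)) Y.P (D.e (ia D x) x)) * Real.exp (-(rf D).ev Y.φ x)

theorem ka_eq (ha : x ∈ (D.e a).source) :
    Y.ka x = normSq (xm (D.c a) Y.P (D.e a x)) * Real.exp (-Y.fi a (D.e a x)) := by
  rw [ka, ev_φ, xm_tr D Y.P ha (ia_mem x), Y.fi_cmp ha (ia_mem x), neg_add, Real.exp_add,
    Real.exp_neg (Real.log _), map_mul]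
  have := normSq_pos.2 ((coc D Y.P).ne a _ x ha (ia_mem x))
  rw [Real.exp_log this]
  field_simp

theorem ka_pos (hx : x ∈ off D) : 0 < Y.ka x :=
  mul_pos (normSq_pos.2 (MON.xm_ne _ (hx _ (ia_mem x)))) (Real.exp_pos _)

theorem ka_cont : ContinuousOn Y.ka (off D) := fun x hx => by
  have ha := ia_mem (D := D) x
  have c1 := (K32.xm_hol (K := Y.P) fun i _ => hx _ ha i).self_of_nhds.continuousAt
  have c2 := (Y.fi_sm (a := ia D x) (TRF.mem_B D ha)).continuousAt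
  refine (ContinuousAt.congr (((continuous_normSq.continuousAt.comp c1).mul
    (Real.continuous_exp.continuousAt.comp c2.neg)).comp ((D.e _).continuousAt ha))
    ?_).continuousWithinAt
  filter_upwards [(D.e _).open_source.mem_nhds ha] with y hy
  exact (Y.ka_eq hy).symm

/-- The density. -/
def ρ (x : M.X) : ℝ := Y.ka x * Real.exp (-lw D Y.r x)

theorem ρ_det (hz : z ∈ B2 n) (ho : Off (D.c a) z) :
    (Y.g (D.e a) z).det.re * Y.ρ ((D.e a).symm z) =
      normSq (Y.w a z) ^ (1 / Y.m : ℝ) * xr (D.c a) (fun i => Y.l i / Y.m) z := by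
  have h1 : 0 < (Y.g (D.e a) z).det.re :=
    (Complex.pos_iff.1 (Y.kae.pos _ (D.mem a) z (K32.tg hz)).det_pos).1
  have h2 := PW.rd_lw D Y.r hz ho
  rw [Ad.rd] at h2
  rw [ρ, Y.ka_eq (TRF.mem_src D hz), TRF.rinv D hz, h2, K32.xm_exp fun i _ => ho i,
    K32.xr_exp fun i _ => ho i, Real.rpow_def_of_pos (normSq_pos.2 (Y.wne a z hz)),
    ← Real.exp_log h1, ← Real.exp_add, ← Real.exp_add, ← Real.exp_add, ← Real.exp_add, fi]
  congr 1
  simp only [lm, r, sub_mul, Finset.sum_sub_distrib]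
  ring

/-- The volume measure. -/
def ν : Measure M.X := (rf D).mu Y.g

theorem det_pos (hz : z ∈ B2 n) : 0 < (Y.g (D.e a) z).det.re :=
  (Complex.pos_iff.1 (Y.kae.pos _ (D.mem a) z (K32.tg hz)).det_pos).1

theorem ν_src (d : D.A) (F : M.X → ℝ≥0∞) : ∫⁻ x in (D.e d).source, F x ∂Y.ν =
    ∫⁻ z in B2 n, ENNReal.ofReal (Y.g (D.e d) z).det.re * F ((D.e d).symm z) := by
  have e : (D.e d).symm '' B2 n = (D.e d).source := by
    rw [← D.tgt d]; exact (D.e d).symm.image_source_eq_target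
  rw [← e]
  exact ((mMU n (rf D) Y.g (rf_kae D Y.kae).toMet).2.2.2.2.2.1 _ ((ix D).mem d) _
    isOpen_ball.measurableSet (D.tgt d).ge).2.1 F

theorem lint (F : M.X → ℝ≥0∞) : ∫⁻ x, F x ∂Y.μ = ∫⁻ x, ENNReal.ofReal (Y.ρ x) * F x ∂Y.ν := by
  refine lint_glue (D := D) (fun d F => ?_) F
  rw [Y.eta d F, Y.ν_src]
  refine lintegral_congr_ae ?_
  filter_upwards [ae_restrict_mem isOpen_ball.measurableSet,
    ae_restrict_of_ae (MON.off_ae (D.c d))] with z hz ho
  rw [← Y.ρ_det hz ho, ← mul_assoc, ENNReal.ofReal_mul (Y.det_pos hz).le]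

theorem off_ν : ∀ᵐ x ∂Y.ν, x ∈ off D := by
  have hm := (PW.open_off D).measurableSet.compl
  have h := lint_glue (D := D) (μ := Y.ν) (ν := Y.ν) (ρ := (off D).indicator 1) (fun d F => by
    rw [Y.ν_src, Y.ν_src]
    refine lintegral_congr_ae ?_
    filter_upwards [ae_restrict_mem isOpen_ball.measurableSet,
      ae_restrict_of_ae (MON.off_ae (D.c d))] with z hz ho
    rw [indicator_of_mem ((GLU.mem_off (TRF.mem_src D hz)).2 (by rwa [TRF.rinv D hz])),
      Pi.one_apply, one_mul]) ((off D)ᶜ.indicator 1)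
  rw [lintegral_indicator_one hm] at h
  refine h.trans ((lintegral_congr fun x => ?_).trans lintegral_zero)
  by_cases hx : x ∈ off D <;> simp [hx]

theorem ρ_pos (hx : x ∈ off D) : 0 < Y.ρ x := mul_pos (Y.ka_pos hx) (Real.exp_pos _)

theorem aem {f : M.X → ℝ} (hf : ContinuousOn f (off D)) : AEMeasurable f Y.ν := by
  have := hf.aemeasurable (μ := Y.ν) (PW.open_off D).measurableSet
  rwa [Measure.restrict_eq_self_of_ae_mem Y.off_ν] at this

theorem smo_cont {F : Type} [NormedAddCommGroup F] [NormedSpace ℝ F] {f : M.X → F}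
    (hf : SmO D f) : ContinuousOn f (off D) := fun x hx =>
  (GLU.cont_rd (ia_mem x) (hf _ _ (TRF.mem_B D (ia_mem x))
    (hx _ (ia_mem x))).continuousAt).continuousWithinAt

theorem ρ_cont : ContinuousOn Y.ρ (off D) :=
  Y.ka_cont.mul (Real.continuous_exp.comp_continuousOn (smo_cont (PW.lw_sm D _)).neg)

theorem ν_ac : Y.ν ≪ Y.μ := Measure.AbsolutelyContinuous.mk fun S hS h0 => by
  have h := Y.lint (S.indicator 1)
  rw [lintegral_indicator_one hS, h0] at h
  have h1 : ∫⁻ x in S, ENNReal.ofReal (Y.ρ x) ∂Y.ν = 0 := by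
    rw [← lintegral_indicator hS, h]
    exact lintegral_congr fun x => by by_cases hx : x ∈ S <;> simp [hx]
  rw [setLIntegral_eq_zero_iff' hS (Y.aem Y.ρ_cont).ennreal_ofReal.restrict] at h1
  refine measure_eq_zero_iff_ae_notMem.2 ?_
  filter_upwards [h1, Y.off_ν] with x h2 h3 hx
  exact (ENNReal.ofReal_pos.2 (Y.ρ_pos h3)).ne' (h2 hx)

/-- The weight off the divisor. -/
def F (u : M.X → ℝ) (x : M.X) : ℝ := u x - lw D Y.r x

theorem lint_F (f u : M.X → ℝ) : ∫⁻ x, ENNReal.ofReal (f x * Real.exp (-Y.F u x)) ∂Y.μ =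
    ∫⁻ x, ENNReal.ofReal (Y.ka x * f x * Real.exp (-u x)) ∂Y.ν := by
  rw [Y.lint]
  refine lintegral_congr_ae (Y.off_ν.mono fun x hx => ?_)
  beta_reduce
  rw [← ENNReal.ofReal_mul (Y.ρ_pos hx).le, ρ, F, neg_sub, sub_eq_add_neg, Real.exp_add,
    Real.exp_neg (lw D Y.r x)]
  congr 1
  field_simp

theorem curv0 {u : M.X → ℝ} (hu : M.Sm u) (hz : z ∈ B2 n) (ho : Off (D.c a) z) (v : E n) :
    lv (Y.fi a) z v + nq (M.ric Y.g (D.e a) z) v + lv (D.rd u a) z v =
      lv (D.rd (Y.F u) a) z v := by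
  have s1 := Y.wt1.sm _ (D.mem a) z (K32.tg hz)
  have s2 : ContDiffAt ℝ ∞ (fun y => ∑ i, Y.r i * Real.log (PW.gf D a i y)) z :=
    ContDiffAt.sum fun i _ => contDiffAt_const.mul (gf_log i hz)
  obtain ⟨s3, l3⟩ := K32.lv_log (Y.w_hol hz) (Y.wne a z hz)
  have s4 : ContDiffAt ℝ ∞ (D.rd u a) z := hu _ (D.mem a) z (K32.tg hz)
  have s5 := fun i => K32.lv_log (f := xi (D.c a) i)
    (.of_forall fun w => MON.diff_xi (D.c a) i w) (ho i)
  have s6 : ContDiffAt ℝ ∞ (lm (D.c a) Y.r) z :=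
    ContDiffAt.sum fun i _ => contDiffAt_const.mul (s5 i).1
  have l6 : lv (lm (D.c a) Y.r) z v = 0 := by
    refine (K32.lv_sum (fun i _ => contDiffAt_const.mul (s5 i).1) v).trans
      (Finset.sum_eq_zero fun i _ => ?_)
    rw [K32.lv_mul (s5 i).1, (s5 i).2, mul_zero]
  have e1 : D.rd (Y.F u) a =ᶠ[𝓝 z] fun y => D.rd u a y -
      (lm (D.c a) Y.r y + ∑ i, Y.r i * Real.log (PW.gf D a i y)) := by
    filter_upwards [isOpen_ball.eventually_mem hz, PW.off_ev _ ho] with y h1 h2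
    rw [← PW.rd_lw D _ h1 h2]; rfl
  have e2 : nq (M.ric Y.g (D.e a) z) v = -lv (fun y => Real.log (Y.g (D.e a) y).det.re) z v := by
    simp only [lv, nq, Mf.ric, Matrix.neg_mulVec, dotProduct_neg, neg_re]; rfl
  rw [K32.lv_congr e1, K32.lv_sub s4 (s6.add s2), K32.lv_add s6 s2, l6, e2]
  unfold fi
  rw [K32.lv_sub (s1.sub s2) (contDiffAt_const.mul s3), K32.lv_sub s1 s2, K32.lv_mul s3, l3]
  ring

/-- The Jacobian matrix from the chosen chart to the small chart. -/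
def jj (D : Ad M ι) (x : M.X) : Mat n := M.J (D.e (ia D x)) (ce D x) x

theorem nq_ev {T : M.Fam (Mat n)} (hT : M.Ten T) (x : M.X) (v : E n) :
    nq ((rf D).ev T x) v = nq (T (D.e (ia D x)) (D.e (ia D x) x)) (jj D x *ᵥ v) :=
  nq_tr hT (D.mem _) (ce_mem x) (ia_mem x) (mem_ce x) v

theorem curv {u : M.X → ℝ} (hu : M.Sm u) (hx : x ∈ off D) (v : E n) :
    nq ((rf D).ev ((rf D).hw Y.φ) x + (rf D).ev ((rf D).ric Y.g) x + (rf D).ev ((rf D).hs u) x) v =
      lv (D.rd (Y.F u) (ia D x)) (D.e (ia D x) x) (jj D x *ᵥ v) := by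
  have ha := ia_mem (D := D) x
  have h1 := K32.lv_tr (u := fun y => Y.fi (ia D x) (D.e (ia D x) y)) (D.mem _) (ce_mem (D := D) x) ha
    (mem_ce x) ((Y.fi_sm (TRF.mem_B D ha)).congr_of_eventuallyEq (Y.fi_rd ha))
  have h2 := nq_ev (D := D) ((mHES n M).2.2.2.2.2.2.2.2.1 _ Y.kae.toMet).toTen x v
  have h3 := nq_ev (D := D) ((mHES n M).1 _ hu).toTen x v
  rw [← Y.curv0 hu (TRF.mem_B D ha) (hx _ ha), ← K32.lv_congr (Y.fi_rd ha)]
  simp only [nq, Matrix.add_mulVec, dotProduct_add, add_re] at h2 h3 ⊢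
  refine congrArg₂ _ (congrArg₂ _ ?_ h2) h3
  exact (congrArg (nq · v) h1).trans (BBD.nq_conj _ _ v)

theorem ev_db {s : M.Fam ℂ} {G : M.X → ℂ} (h : Nm D Y.P s G) (hG : SmO D G) (hx : x ∈ off D)
    (i : Fin n) : dzb i (s (ce D x)) (ce D x x) =
      xm (D.c (ia D x)) Y.P (D.e (ia D x) x) * dzb i (G ∘ (ce D x).symm) (ce D x x) := by
  have ha := ia_mem (D := D) x
  have hc := mem_ce (D := D) x
  have h1 : HolN (fun w => xm (D.c (ia D x)) Y.P (D.e (ia D x) ((ce D x).symm w)))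
      (ce D x x) := K19.holN_chg (f := fun y => xm (D.c (ia D x)) Y.P (D.e (ia D x) y))
    (D.mem _) (ce_mem x) ha hc (K32.hol_congr (K32.xm_hol (K := Y.P) fun i _ => hx _ ha i)
      ((isOpen_ball.eventually_mem (TRF.mem_B D ha)).mono fun w hw => by
        simp only [TRF.rinv D hw]))
  have h2 := K19.cd_chg (f := G) (D.mem _) (ce_mem x) ha hc (hG _ _ (TRF.mem_B D ha) (hx _ ha))
  have e : s (ce D x) =ᶠ[𝓝 (ce D x x)] fun w =>
      xm (D.c (ia D x)) Y.P (D.e (ia D x) ((ce D x).symm w)) * G ((ce D x).symm w) := by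
    have t := (ce D x).map_source hc
    filter_upwards [(ce D x).open_target.mem_nhds t,
      ((ce D x).continuousAt_symm t).preimage_mem_nhds ((PW.open_off D).mem_nhds
        (by rwa [(ce D x).left_inv hc]))] with w h3 h4
    exact (congrArg (s (ce D x)) ((ce D x).right_inv h3)).symm.trans
      (h _ (Mf.ch_mem (M := rf D) x) _ ((ce D x).map_target h3) h4)
  rw [dzb_congr e, dzb_mul (cd_diff (K32.hol_cd h1)) (cd_diff h2),
    ((mHOL n _ _).1 (cd_diff (K32.hol_cd h1))).1 h1.self_of_nhds i, zero_mul, zero_add,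
    (ce D x).left_inv hc]
  rfl

theorem db_ev {G : M.X → ℂ} (hG : SmO D G) (hx : x ∈ off D) (v : E n) :
    db (G ∘ (ce D x).symm) (ce D x x) v =
      db (D.rd G (ia D x)) (D.e (ia D x) x) (jj D x *ᵥ v) :=
  db_tr (D.mem _) (ce_mem x) (ia_mem x) (mem_ce x)
    (hG _ _ (TRF.mem_B D (ia_mem x)) (hx _ (ia_mem x))) v

end Dat

theorem pol_smo {P : ι → ℤ} {G : M.X → ℂ} (h : D.All fun d z => Pol (D.c d) P (D.rd G d) z) :
    SmO D G := fun d z hz ho => by
  obtain ⟨s, s1, s2⟩ := h d z hz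
  refine ((K32.hol_cd (K32.xm_hol (K := -P) fun i _ => ho i)).mul
    s1.self_of_nhds).congr_of_eventuallyEq ?_
  filter_upwards [s2, PW.off_ev _ ho] with y a b using a b

end Pool.Agent.Lib.K70
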