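import Pool.Agent.Lib.K70.Apx
import Pool.Agent.Lib.K70.Wt
import Pool.Agent.Lib.EXH.B_CORE

/-! Project K2: approximate solutions for functions with poles along a divisor. -/

open scoped Classical Topology ContDiff ComplexOrder Matrix ENNReal
open Set MeasureTheory Complex Metric Filter

set_option linter.unusedSectionVars false

noncomputable section

namespace Pool.Agent.Lib.K70

open Pool.Agent.Lib.SV (E)
open Pool.Agent.Lib.HS32 Pool.Agent.Lib.EX Pool.Agent.Lib.EXS Pool.Agent.Lib.ZL Pool.Agent.Lib.KP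
open Pool.Agent.Lib.EXS.K32 (lv lm)

variable {n : ℕ} {M : Mf n} {ι : Type} [Fintype ι] [DecidableEq ι] [M.Cpt] {D : Ad M ι}

namespace Dat

variable (Y : Dat D) {x : M.X} {s σ : M.Fam ℂ} {G Γ : M.X → ℂ}

theorem ev_db' (h : Nm D Y.P s G) (hG : SmO D G) (hx : x ∈ off D) :
    (rf D).ev (HS.db (rf D) s) x = xm (D.c (ia D x)) Y.P (D.e (ia D x) x) •
      fun i => dzb i (G ∘ (ce D x).symm) (ce D x x) :=
  funext fun i => Y.ev_db h hG hx i

theorem nr_eq (h : Nm D Y.P s G) (h' : Nm D Y.P σ Γ) (hx : x ∈ off D) :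
    (rf D).nrC Y.φ (σ - s) x = Y.ka x * normSq (Γ x - G x) := by
  have a := h _ (Mf.ch_mem (M := rf D) x) x (mem_ce x) hx
  have b := h' _ (Mf.ch_mem (M := rf D) x) x (mem_ce x) hx
  have c : (rf D).ev (σ - s) x = xm (D.c (ia D x)) Y.P (D.e (ia D x) x) * (Γ x - G x) :=
    (congrArg₂ (· - ·) b a).trans (mul_sub _ _ _).symm
  rw [Mf.nrC, c, map_mul, ka]
  ring

/-- The norm of the derivative. -/
def bt (s : M.Fam ℂ) (x : M.X) : ℝ := (dpC (rf D) Y.g Y.φ s s x).re / Y.ka x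

theorem bt_dom (h : Nm D Y.P s G) (hG : SmO D G) : OA D fun d z => ∀ v,
    normSq (db (D.rd G d) z v) ≤ D.rd (Y.bt s) d z * nq (Y.g (D.e d) z) v := fun d z hz ho v => by
  have hd := TRF.mem_src D (a := d) hz
  have hr := TRF.rinv D (a := d) hz
  rw [Ad.rd]
  generalize (D.e d).symm z = x at hd hr
  subst hr
  have hx := (GLU.mem_off hd).2 ho
  have h1 : (Y.g (ce D x) (ce D x x)).PosDef :=
    Y.kae.pos _ (ce_mem x) _ ((ce D x).map_source (mem_ce x))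
  have h2 := K19.cd_chg (f := G) (D.mem _) (ce_mem (D := D) x) hd (mem_ce x) (hG _ _ hz ho)
  have h3 : Y.bt s x = nq (Y.g (ce D x) (ce D x x)) ((Y.g (ce D x) (ce D x x))⁻¹ *ᵥ
      fun i => dzb i (G ∘ (ce D x).symm) (ce D x x)) := by
    rw [nq_inv h1, bt, div_eq_iff (Y.ka_pos hx).ne', dpC, Y.ev_db' h hG hx, re_mul_ofReal, ka,
      star_smul, Matrix.mulVec_smul, smul_dotProduct, dotProduct_smul, smul_smul, smul_eq_mul,
      mul_comm (star _), Complex.star_def, Complex.mul_conj, re_ofReal_mul]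
    exact (mul_assoc _ _ _).trans (mul_left_comm _ _ _)
  have h4 := EXH.CORE.cs h1.posSemidef (M.J (ce D x) (D.e d) x *ᵥ v)
    ((Y.g (ce D x) (ce D x x))⁻¹ *ᵥ fun i => dzb i (G ∘ (ce D x).symm) (ce D x x))
  rw [Matrix.mulVec_mulVec _ (Y.g _ _), Matrix.mul_nonsing_inv _
    ((Matrix.isUnit_iff_isUnit_det _).1 h1.isUnit), Matrix.one_mulVec, ← h3, mul_comm,
    ← nq_tr Y.kae.toTen (ce_mem x) (D.mem d) (mem_ce x) hd, ← normSq_eq_norm_sq] at h4
  exact (congrArg normSq (db_tr (ce_mem x) (D.mem d) (mem_ce x) hd h2 v)).trans_le h4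

/-- Approximate solutions. -/
theorem apa {u : ℕ → M.X → ℝ} (hu : ∀ j, M.Sm (u j)) (anti : ∀ j x, u (j + 1) x ≤ u j x)
    (hΓ : D.All fun d z => Pol (D.c d) Y.P (D.rd Γ d) z) {C ε A : ℝ} (hC : 0 ≤ C) (hε : 0 < ε)
    (hA : 0 < A) {β : ℕ → M.X → ℝ} (hm : ∀ j, AEMeasurable (β j) Y.μ)
    (h0 : ∀ j, ∀ x ∈ off D, 0 ≤ β j x)
    (hb : ∀ j, OA D fun d z => ∀ v, 0 ≤ lv (D.rd (Y.F (u (j + 1))) d) z v +
        (ε + C * (1 - Real.exp (D.rd (u (j + 1)) d z - D.rd (u j) d z))) * nq (Y.g (D.e d) z) v ∧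
      normSq (db (D.rd Γ d) z v) ≤ D.rd (β j) d z * (lv (D.rd (Y.F (u (j + 1))) d) z v +
        (ε + C * (1 - Real.exp (D.rd (u (j + 1)) d z - D.rd (u j) d z))) * nq (Y.g (D.e d) z) v))
    (hI : ∀ j, ∫⁻ x, ENNReal.ofReal (β j x * Real.exp (-Y.F (u (j + 1)) x)) ∂Y.μ ≤
      ENNReal.ofReal A) :
    ∀ᶠ j in atTop, ∃ (Φ : M.X → ℂ) (b : M.X → ℝ),
      (D.All fun d z => Pol (D.c d) Y.P (D.rd Φ d) z) ∧ ContinuousOn b (off D) ∧
      (∀ x ∈ off D, 0 ≤ b x) ∧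
      (OA D fun d z => ∀ v, normSq (db (D.rd Φ d) z v) ≤ D.rd b d z * nq (Y.g (D.e d) z) v) ∧
      ∫⁻ x, ENNReal.ofReal (normSq (Γ x - Φ x) * Real.exp (-Y.F (u j) x)) ∂Y.μ ≤
        ENNReal.ofReal (2 * A) ∧
      ∫⁻ x, ENNReal.ofReal (b x * Real.exp (-Y.F (u j) x)) ∂Y.μ ≤ ENNReal.ofReal (2 * ε * A) := by
  have hk := rf_kae D Y.kae
  have cu : ∀ j, Continuous fun x => Real.exp (-u j x) := fun j =>
    Real.continuous_exp.comp (hu j).continuous.neg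
  have hi := (mMU n (rf D) Y.g hk.toMet).2.2.2.2.1
  have key := apx hk Y.φ_wt (nu_sec hΓ) (w := u) (fun j => rf_sm D (hu j)) anti hC hε hA
    (b := fun j x => Y.ka x * β j x) (fun j => Y.off_ν.mono fun x hx => ?_) fun j => ?_
  · refine key.mono ?_
    rintro j ⟨s, hs, i1, i2⟩
    obtain ⟨Φ, p1, p2⟩ := ex_fun hs
    have sc := aSC5 n (rf D) Y.g _ Y.φ s s hk.toMet Y.φ_wt hs hs
    have sd := aSC5 n (rf D) Y.g _ Y.φ _ s hk.toMet Y.φ_wt (nu_sec hΓ) hs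
    have se := aSC5 n (rf D) Y.g _ Y.φ _ s hk.toMet Y.φ_wt sd.1 hs
    have c1 := continuous_re.comp sc.2.2.2.2.2.2.2.1
    have n1 := fun x => (sc.2.2.2.2.2.2.2.2.1 x).2.2.1
    refine ⟨Φ, Y.bt s, p1, c1.continuousOn.div Y.ka_cont fun x hx => (Y.ka_pos hx).ne',
      fun x hx => div_nonneg (n1 x) (Y.ka_pos hx).le, Y.bt_dom p2 (pol_smo p1), ?_, ?_⟩
    · rw [Y.lint_F]
      refine le_of_eq_of_le (lintegral_congr_ae (Y.off_ν.mono fun x hx => ?_))
        ((ofReal_integral_eq_lintegral_ofReal (hi _ _ (se.2.2.2.1.mul (cu j))) (.of_forall fun x => mul_nonneg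
          (se.2.2.2.2.2.2.2.2.1 x).1 (Real.exp_pos _).le)).symm.trans_le
        (ENNReal.ofReal_le_ofReal i1))
      beta_reduce
      rw [← Y.nr_eq p2 (nu_nm hΓ) hx]
      rfl
    · rw [Y.lint_F]
      refine le_of_eq_of_le (lintegral_congr_ae (Y.off_ν.mono fun x hx => ?_))
        ((ofReal_integral_eq_lintegral_ofReal (hi _ _ (c1.mul (cu j))) (.of_forall fun x => mul_nonneg (n1 x)
          (Real.exp_pos _).le)).symm.trans_le (ENNReal.ofReal_le_ofReal i2))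
      beta_reduce
      rw [bt, mul_div_cancel₀ _ (Y.ka_pos hx).ne']
      rfl
  · refine ⟨mul_nonneg (Y.ka_pos hx).le (h0 j x hx), fun v => ?_⟩
    have ha := ia_mem (D := D) x
    have h := hb j _ _ (TRF.mem_B D ha) (hx _ ha) (jj D x *ᵥ v)
    simp only [Ad.rd, (D.e _).left_inv ha] at h
    have e : cv (M := rf D) Y.g Y.φ ε C (u j) (u (j + 1)) x v = _ :=
      congrArg₂ (· + ·) (Y.curv (hu (j + 1)) hx v)
        (congrArg (_ * ·) (nq_ev (D := D) Y.kae.toTen x v))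
    have e2 : ∑ i, star (v i) * (rf D).ev (HS.db (rf D) ((ix D).fam (nu D Y.P Γ))) x i =
        xm (D.c (ia D x)) Y.P (D.e (ia D x) x) *
          db (D.rd Γ (ia D x)) (D.e (ia D x) x) (jj D x *ᵥ v) := by
      rw [← db_ev (pol_smo hΓ) hx, Y.ev_db' (nu_nm hΓ) (pol_smo hΓ) hx, db, Finset.mul_sum]
      exact Finset.sum_congr rfl fun i _ => mul_left_comm _ _ _
    rw [e, e2, map_mul, mul_right_comm, mul_assoc (Y.ka x)]
    exact ⟨h.1, mul_le_mul_of_nonneg_left h.2 (Y.ka_pos hx).le⟩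
  · have m1 : AEStronglyMeasurable (fun x => Y.ka x * β j x * Real.exp (-u (j + 1) x)) Y.ν :=
      (((Y.aem Y.ka_cont).mul ((hm j).mono_ac Y.ν_ac)).mul
        (cu _).measurable.aemeasurable).aestronglyMeasurable
    have p1 : 0 ≤ᵐ[Y.ν] fun x => Y.ka x * β j x * Real.exp (-u (j + 1) x) :=
      Y.off_ν.mono fun x hx => mul_nonneg (mul_nonneg (Y.ka_pos hx).le (h0 j x hx))
        (Real.exp_pos _).le
    have l1 := (Y.lint_F _ _).symm.trans_le (hI j)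
    exact ⟨⟨m1, (hasFiniteIntegral_iff_ofReal p1).2 (l1.trans_lt ENNReal.ofReal_lt_top)⟩,
      (integral_eq_lintegral_of_nonneg_ae p1 m1).trans_le
        (ENNReal.toReal_le_of_le_ofReal hA.le l1)⟩

end Dat

end Pool.Agent.Lib.K70
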