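import Pool.Agent.Lib.KP.All

/-! Project K2: approximate solutions for a decreasing sequence of smooth weights. -/

open scoped Classical Topology ContDiff ComplexOrder Matrix
open Set MeasureTheory Complex Filter

noncomputable section

namespace Pool.Agent.Lib.K70

open Pool.Agent.Lib.SV (E)
open Pool.Agent.Lib.HS32 Pool.Agent.Lib.HS32.Mf Pool.Agent.Lib.HS21 Pool.Agent.Lib.KP
open Pool.Agent.Lib.HS (db)

variable {n : ℕ} {M : Mf n} {H : M.Fam (Mat n)} {L : M.Co} {φ : M.Fam ℝ} {σ s u : M.Fam ℂ}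

theorem re_cs {P : Mat n} (hP : P.PosSemidef) (a b : E n) :
    2 * (star b ⬝ᵥ P *ᵥ a).re ≤ (star a ⬝ᵥ P *ᵥ a).re + (star b ⬝ᵥ P *ᵥ b).re := by
  have h1 := hP.re_dotProduct_nonneg (a - b)
  have h2 : star a ⬝ᵥ P *ᵥ b = star (star b ⬝ᵥ P *ᵥ a) := by
    rw [Matrix.star_dotProduct, Matrix.star_mulVec, hP.1.eq, Matrix.dotProduct_mulVec]
  simp only [star_sub, Matrix.mulVec_sub, sub_dotProduct, dotProduct_sub, h2, RCLike.re_to_complex,
    sub_re, Complex.star_def, conj_re] at h1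
  linarith

theorem nq_inv {P : Mat n} (hP : P.PosDef) (a : E n) :
    nq P (P⁻¹ *ᵥ a) = (star a ⬝ᵥ P⁻¹ *ᵥ a).re := by
  have h1 : P *ᵥ P⁻¹ *ᵥ a = a := by
    rw [Matrix.mulVec_mulVec,
      Matrix.mul_nonsing_inv _ ((Matrix.isUnit_iff_isUnit_det _).1 hP.isUnit), Matrix.one_mulVec]
  rw [nq, h1, Matrix.star_dotProduct]
  simp

/-- The weight `φ + w`. -/
def pw (φ : M.Fam ℝ) (w : M.X → ℝ) : M.Fam ℝ := φ + fun e z => w (e.symm z)

theorem ex_pw (w : M.X → ℝ) (x : M.X) :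
    Real.exp (-M.ev (pw φ w) x) = Real.exp (-M.ev φ x) * Real.exp (-w x) := by
  rw [← Real.exp_add]
  simp only [pw, ev, Pi.add_apply, ch_symm, neg_add]

theorem nr_pw (w : M.X → ℝ) (x : M.X) :
    M.nrC (pw φ w) s x = M.nrC φ s x * Real.exp (-w x) := by
  rw [nrC, nrC, ex_pw, mul_assoc]

theorem dp_pw (w : M.X → ℝ) (x : M.X) :
    dpC M H (pw φ w) s u x = dpC M H φ s u x * (Real.exp (-w x) : ℝ) := by
  rw [dpC, dpC, ex_pw, ofReal_mul, mul_assoc]

theorem dp_re (w : M.X → ℝ) (x : M.X) :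
    (dpC M H (pw φ w) s u x).re = (dpC M H φ s u x).re * Real.exp (-w x) := by
  rw [dp_pw, re_mul_ofReal]

theorem dp_cs (hH : M.Met H) (x : M.X) :
    2 * (dpC M H φ s u x).re ≤ (dpC M H φ s s x).re + (dpC M H φ u u x).re := by
  have h1 : (M.ev H x).PosDef := AllOn.ch hH.pos x
  simp only [dpC, re_mul_ofReal]
  rw [← add_mul, ← mul_assoc]
  exact mul_le_mul_of_nonneg_right (re_cs h1.inv.posSemidef _ _) (Real.exp_pos _).le

theorem sp_cs (x : M.X) : 2 * (spC M φ s u x).re ≤ M.nrC φ s x + M.nrC φ u x := by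
  simp only [spC, nrC, re_mul_ofReal]
  rw [← add_mul, ← mul_assoc]
  refine mul_le_mul_of_nonneg_right ?_ (Real.exp_pos _).le
  have := normSq_nonneg (M.ev s x - M.ev u x)
  rw [normSq_sub] at this
  simp only [Complex.star_def]
  linarith

/-- The energy of `s`. -/
def en (H : M.Fam (Mat n)) (φ : M.Fam ℝ) (ε : ℝ) (σ s : M.Fam ℂ) [M.Cpt] : ℝ :=
  ε * ∫ x, M.nrC φ (σ - s) x ∂M.mu H + ∫ x, (dpC M H φ s s x).re ∂M.mu H

variable [M.Cpt] {ε : ℝ}

/-- The minimiser of the energy. -/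
theorem minim (hH : M.Kae H) (hφ : M.WtC L φ) (hσ : M.SecC L σ) (hε : 0 < ε) :
    ∃ s, M.SecC L s ∧ en H φ ε σ s = ∫ x, (dpC M H φ s σ x).re ∂M.mu H ∧
      (∀ u, M.SecC L u → en H φ ε σ s ≤ en H φ ε σ u) ∧
      ∫ x, wqC M H φ (M.hw φ + M.ric H) s x ∂M.mu H ≤
        ε ^ 2 * ∫ x, M.nrC φ (σ - s) x ∂M.mu H := by
  have hm := hH.toMet
  obtain ⟨-, -, -, -, hi, -⟩ := mMU n M H hm
  obtain ⟨s, hs, heq⟩ := aBOX n M H L φ _ ε hH hφ (hσ.smul (ε : ℂ)) hε
  have sc := fun a b => aSC5 n M H L φ a b hm hφ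
  have hd := hσ.sub hs
  have hL : ∀ x, M.ev ((boxC M H φ).ap s) x = -(ε * M.ev (σ - s) x) := fun x => by
    have h1 : ε * M.ev s x - M.ev ((boxC M H φ).ap s) x = ε * M.ev σ x := AllOn.ch heq x
    have h2 : M.ev (σ - s) x = M.ev σ x - M.ev s x := rfl
    rw [h2]
    linear_combination -h1
  have iS : ∀ a b, M.SecC L a → M.SecC L b → Integrable (spC M φ a b) (M.mu H) :=
    fun a b ha hb => hi _ _ (sc a b ha hb).2.2.2.2.2.1
  have iD : ∀ a b, M.SecC L a → M.SecC L b → Integrable (dpC M H φ a b) (M.mu H) :=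
    fun a b ha hb => hi _ _ (sc a b ha hb).2.2.2.2.2.2.2.1
  have iN : ∀ a, M.SecC L a → Integrable (M.nrC φ a) (M.mu H) :=
    fun a ha => hi _ _ (sc a a ha ha).2.2.2.1
  have gr : ∀ r, M.SecC L r → ε * ∫ x, (spC M φ (σ - s) r x).re ∂M.mu H =
      ∫ x, (dpC M H φ s r x).re ∂M.mu H := fun r hr => by
    have h1 := aGRN2 n M H L φ s r hH hφ hs hr
    have h2 : ∀ x, spC M φ ((boxC M H φ).ap s) r x = -((ε : ℂ) * spC M φ (σ - s) r x) := fun x => by
      rw [spC, spC, hL]; ring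
    simp only [h2, integral_neg, neg_inj, integral_const_mul] at h1
    have h3 := integral_re (iS _ r hd hr)
    have h4 := integral_re (iD s r hs hr)
    simp only [RCLike.re_to_complex] at h3 h4
    rw [h3, h4, ← h1, re_ofReal_mul]
  have ke : ∀ u, M.SecC L u → en H φ ε σ s = ε * ∫ x, (spC M φ (σ - s) (σ - u) x).re ∂M.mu H +
      ∫ x, (dpC M H φ s u x).re ∂M.mu H := fun u hu => by
    have h1 := gr _ (hu.sub hs)
    have h2 : ∀ x, (dpC M H φ s (u - s) x).re = (dpC M H φ s u x).re - (dpC M H φ s s x).re :=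
      fun x => by rw [((sc s u hs hu).2.2.2.2.2.2.2.2.1 x).2.2.2.2.2, sub_re]
    have h3 : ∀ x, (spC M φ (σ - s) (u - s) x).re =
        M.nrC φ (σ - s) x - (spC M φ (σ - s) (σ - u) x).re := fun x => by
      rw [← ofReal_re (M.nrC φ (σ - s) x), ← ((sc _ _ hd hd).2.2.2.2.2.2.2.2.1 x).2.1, ← sub_re]
      have e1 : M.ev (u - s) x = M.ev (σ - s) x - M.ev (σ - u) x := by
        simp only [ev, Pi.sub_apply]; ring
      rw [spC, spC, spC, e1, star_sub, mul_sub, sub_mul]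
    simp only [h2, h3] at h1
    have h4 := integral_sub (iN _ hd) (iS _ _ hd (hσ.sub hu)).re
    have h5 := integral_sub (iD s u hs hu).re (iD s s hs hs).re
    simp only [RCLike.re_to_complex] at h4 h5
    rw [h4, h5] at h1
    rw [en]
    linarith
  refine ⟨s, hs, ?_, fun u hu => ?_, ?_⟩
  · rw [ke σ hσ]
    simp [spC, ev]
  · have h1 := ke u hu
    have h2 : ∫ x, 2 * (spC M φ (σ - s) (σ - u) x).re ∂M.mu H ≤
        ∫ x, M.nrC φ (σ - s) x + M.nrC φ (σ - u) x ∂M.mu H :=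
      integral_mono ((iS _ _ hd (hσ.sub hu)).re.const_mul 2) ((iN _ hd).add (iN _ (hσ.sub hu)))
        fun x => sp_cs x
    have h3 : ∫ x, 2 * (dpC M H φ s u x).re ∂M.mu H ≤
        ∫ x, (dpC M H φ s s x).re + (dpC M H φ u u x).re ∂M.mu H :=
      integral_mono ((iD s u hs hu).re.const_mul 2) ((iD s s hs hs).re.add (iD u u hu hu).re)
        fun x => dp_cs hm x
    rw [integral_const_mul, integral_add (iN _ hd) (iN _ (hσ.sub hu))] at h2
    have h4 := integral_add (iD s s hs hs).re (iD u u hu hu).re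
    simp only [RCLike.re_to_complex] at h4
    rw [integral_const_mul, h4] at h3
    have h5 := mul_le_mul_of_nonneg_left h2 hε.le
    simp only [en] at h1 ⊢
    linarith
  · have h1 := aSIU n M H L φ s hH hφ hs
    have h2 : ∀ x, M.nrC φ ((boxC M H φ).ap s) x = ε ^ 2 * M.nrC φ (σ - s) x := fun x => by
      rw [nrC, nrC, hL, normSq_neg, map_mul, normSq_ofReal]
      ring
    simpa only [h2, integral_const_mul] using h1

/-- The curvature of the weight `φ + w'` with the two error terms. -/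
def cv (H : M.Fam (Mat n)) (φ : M.Fam ℝ) (ε C : ℝ) (w w' : M.X → ℝ) (x : M.X) (v : E n) : ℝ :=
  nq (M.ev (M.hw φ) x + M.ev (M.ric H) x + M.ev (M.hs w') x) v +
    (ε + C * (1 - Real.exp (w' x - w x))) * nq (M.ev H x) v

/-- Approximate solutions. -/
theorem apx (hH : M.Kae H) (hφ : M.WtC L φ) (hσ : M.SecC L σ) {w : ℕ → M.X → ℝ}
    (hw : ∀ j, M.Sm (w j)) (anti : ∀ j x, w (j + 1) x ≤ w j x) {C A : ℝ} (hC : 0 ≤ C)
    (hε : 0 < ε) (hA : 0 < A) {b : ℕ → M.X → ℝ}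
    (hb : ∀ j, ∀ᵐ x ∂M.mu H, 0 ≤ b j x ∧ ∀ v : E n, 0 ≤ cv H φ ε C (w j) (w (j + 1)) x v ∧
      normSq (∑ i, star (v i) * M.ev (db M σ) x i) * Real.exp (-M.ev φ x) ≤
        b j x * cv H φ ε C (w j) (w (j + 1)) x v)
    (hI : ∀ j, Integrable (fun x => b j x * Real.exp (-w (j + 1) x)) (M.mu H) ∧
      ∫ x, b j x * Real.exp (-w (j + 1) x) ∂M.mu H ≤ A) :
    ∀ᶠ j in atTop, ∃ s, M.SecC L s ∧
      ∫ x, M.nrC φ (σ - s) x * Real.exp (-w j x) ∂M.mu H ≤ 2 * A ∧
      ∫ x, (dpC M H φ s s x).re * Real.exp (-w j x) ∂M.mu H ≤ 2 * ε * A := by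
  have hm := hH.toMet
  obtain ⟨-, -, -, -, hi, -⟩ := mMU n M H hm
  have wt : ∀ j, M.WtC L (pw φ (w j)) := fun j => (hφ.addF (hw j)).1
  choose s hs m1 m2 m3 using fun j => minim hH (wt j) hσ hε
  have sc := fun j a b => aSC5 n M H L _ a b hm (wt j)
  have iD : ∀ j a b, M.SecC L a → M.SecC L b →
      Integrable (fun x => (dpC M H (pw φ (w j)) a b x).re) (M.mu H) :=
    fun j a b ha hb => hi _ _ (continuous_re.comp (sc j a b ha hb).2.2.2.2.2.2.2.1)
  have iN : ∀ j a, M.SecC L a → Integrable (M.nrC (pw φ (w j)) a) (M.mu H) :=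
    fun j a ha => hi _ _ (sc j a a ha ha).2.2.2.1
  have p0 := fun a (ha : M.SecC L a) x => (aSC5 n M H L φ a a hm hφ ha ha).2.2.2.2.2.2.2.2.1 x
  have ex : ∀ j x, Real.exp (-w j x) ≤ Real.exp (-w (j + 1) x) := fun j x =>
    Real.exp_le_exp.2 (neg_le_neg (anti j x))
  set K : ℕ → ℝ := fun j => en H (pw φ (w j)) ε σ (s j) with hK
  have moN : ∀ j a, M.SecC L a → ∫ x, M.nrC (pw φ (w j)) a x ∂M.mu H ≤
      ∫ x, M.nrC (pw φ (w (j + 1))) a x ∂M.mu H := fun j a ha =>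
    integral_mono (iN j a ha) (iN _ a ha) fun x => by
      simp only [nr_pw]
      exact mul_le_mul_of_nonneg_left (ex j x) (p0 a ha x).1
  have moD : ∀ j a, M.SecC L a → ∫ x, (dpC M H (pw φ (w j)) a a x).re ∂M.mu H ≤
      ∫ x, (dpC M H (pw φ (w (j + 1))) a a x).re ∂M.mu H := fun j a ha =>
    integral_mono (iD j a a ha ha) (iD _ a a ha ha) fun x => by
      simp only [dp_re]
      exact mul_le_mul_of_nonneg_left (ex j x) (p0 a ha x).2.2.1
  have gap : ∀ j, ∫ x, (dpC M H (pw φ (w (j + 1))) (s (j + 1)) (s (j + 1)) x).re ∂M.mu H -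
      ∫ x, (dpC M H (pw φ (w j)) (s (j + 1)) (s (j + 1)) x).re ∂M.mu H ≤ K (j + 1) - K j :=
    fun j => by
    have h1 := m2 j _ (hs (j + 1))
    have h2 := mul_le_mul_of_nonneg_left (moN j _ (hσ.sub (hs (j + 1)))) hε.le
    simp only [hK, en] at h1 ⊢
    linarith
  have mo : Monotone K := monotone_nat_of_le_succ fun j => by
    linarith [gap j, moD j _ (hs (j + 1))]
  have key : ∀ η > 0, ∀ j, 2 * η * K (j + 1) ≤
      η ^ 2 * A + (ε * K (j + 1) + C * (K (j + 1) - K j)) := fun η hη j => by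
    have tT : M.Ten (M.hw (pw φ (w (j + 1))) + M.ric H) := (wt (j + 1)).clo.toTen.add
      ((mHES n M).2.2.2.2.2.2.2.2.1 H hm).toTen
    have i1 := hi _ _ ((sc (j + 1) _ _ (hs (j + 1)) (hs (j + 1))).2.2.2.2.2.2.2.2.2 _ tT).2
    have i2 := iD (j + 1) _ _ (hs (j + 1)) (hs (j + 1))
    have i3 := iD j _ _ (hs (j + 1)) (hs (j + 1))
    have i4 := integral_mono_ae ((iD (j + 1) _ _ (hs (j + 1)) hσ).const_mul (2 * η))
      (((hI j).1.const_mul (η ^ 2)).add
        (i1.add ((i2.const_mul ε).add ((i2.sub i3).const_mul C)))) ((hb j).mono fun x hx => by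
      obtain ⟨b0, hx⟩ := hx
      set a := M.ev (db M (s (j + 1))) x with ha
      obtain ⟨q0, q1⟩ := hx ((M.ev H x)⁻¹ *ᵥ a)
      set q := cv H φ ε C (w j) (w (j + 1)) x ((M.ev H x)⁻¹ *ᵥ a) with hq
      have hP : (M.ev H x).PosDef := AllOn.ch hm.pos x
      have h2 : star (M.ev (db M σ) x) ⬝ᵥ (M.ev H x)⁻¹ *ᵥ a =
          star (∑ i, star (((M.ev H x)⁻¹ *ᵥ a) i) * M.ev (db M σ) x i) := by
        simp only [star_sum, star_mul, star_star]
        rfl
      have e0 := Real.exp_pos (-M.ev φ x)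
      have h3 : normSq (dpC M H φ (s (j + 1)) σ x) ≤ b j x * (q * Real.exp (-M.ev φ x)) := by
        rw [dpC, ← ha, h2, map_mul, normSq_ofReal, ← mul_assoc, ← mul_assoc, Complex.star_def,
          normSq_conj]
        exact mul_le_mul_of_nonneg_right q1 e0.le
      have h4 := HS.BHOR0.re_le b0 (mul_nonneg q0 e0.le) hη h3
      have h5 : M.ev (M.hw (pw φ (w (j + 1))) + M.ric H) x =
          M.ev (M.hw φ) x + M.ev (M.ric H) x + M.ev (M.hs (w (j + 1))) x := by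
        have := (hφ.addF (hw (j + 1))).2.ch x
        simp only [ev, Pi.add_apply, pw]
        rw [this]
        abel
      have h6 : (dpC M H φ (s (j + 1)) (s (j + 1)) x).re =
          nq (M.ev H x) ((M.ev H x)⁻¹ *ᵥ a) * Real.exp (-M.ev φ x) := by
        rw [dpC, re_mul_ofReal, nq_inv hP]
      have h7 : Real.exp (-w j x) =
          Real.exp (w (j + 1) x - w j x) * Real.exp (-w (j + 1) x) := by
        rw [← Real.exp_add]; congr 1; ring
      simp only [Pi.add_apply, Pi.sub_apply, dp_re, wqC, ex_pw]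
      rw [h5, ← ha, h6, h7]
      have h8 := mul_le_mul_of_nonneg_left h4 (mul_pos two_pos hη).le
      have h9 : 2 * η * (η / 2 * b j x + (2 * η)⁻¹ * (q * Real.exp (-M.ev φ x))) =
          η ^ 2 * b j x + q * Real.exp (-M.ev φ x) := by
        field_simp
      rw [h9, hq, cv] at h8
      have h10 := mul_le_mul_of_nonneg_right h8 (Real.exp_pos (-w (j + 1) x)).le
      linarith)
    have i5 := integral_add ((hI j).1.const_mul (η ^ 2))
      (i1.add ((i2.const_mul ε).add ((i2.sub i3).const_mul C)))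
    have i6 := integral_add i1 ((i2.const_mul ε).add ((i2.sub i3).const_mul C))
    have i7 := integral_add (i2.const_mul ε) ((i2.sub i3).const_mul C)
    have i8 := integral_sub i2 i3
    simp only [Pi.add_apply, Pi.sub_apply] at i4 i5 i6 i7 i8
    rw [i5, i6, i7] at i4
    simp only [integral_const_mul] at i4
    rw [i8, ← m1 (j + 1)] at i4
    have h1 := mul_le_mul_of_nonneg_left (gap j) hC
    have h2 := mul_le_mul_of_nonneg_left (hI j).2 (sq_nonneg η)
    have h3 := m3 (j + 1)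
    simp only [hK, en] at i4 h1 ⊢
    nlinarith
  have K0 : ∀ j, 0 ≤ K j := fun j => add_nonneg (mul_nonneg hε.le (integral_nonneg fun x =>
    ((sc j _ _ (hσ.sub (hs j)) (hσ.sub (hs j))).2.2.2.2.2.2.2.2.1 x).1)) (integral_nonneg fun x =>
      ((sc j _ _ (hs j) (hs j)).2.2.2.2.2.2.2.2.1 x).2.2.1)
  have bd : ∀ j, K j ≤ (ε + C) * A := fun j => (mo (Nat.le_succ j)).trans
    (le_of_mul_le_mul_left (by
      nlinarith [key (ε + C) (by positivity) j, mul_nonneg hC (K0 j)]) (by positivity : 0 < ε + C))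
  have t := tendsto_atTop_ciSup mo ⟨_, by rintro _ ⟨j, rfl⟩; exact bd j⟩
  have t2 := (((tendsto_add_atTop_iff_nat 1).2 t).sub t).const_mul C
  rw [sub_self, mul_zero] at t2
  have ev1 : ∀ᶠ j in atTop, C * (K (j + 1) - K j) < ε ^ 2 * A :=
    t2.eventually (gt_mem_nhds (by positivity))
  obtain ⟨j₀, hj⟩ := eventually_atTop.1 ev1
  refine eventually_atTop.2 ⟨j₀ + 1, fun j h => ?_⟩
  obtain ⟨j, rfl⟩ : ∃ i, j = i + 1 := ⟨j - 1, by omega⟩
  have h1 : K (j + 1) ≤ 2 * ε * A :=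
    le_of_mul_le_mul_left (by nlinarith [key ε hε j, hj j (by omega)]) hε
  have h2 : 0 ≤ ∫ x, M.nrC φ (σ - s (j + 1)) x * Real.exp (-w (j + 1) x) ∂M.mu H :=
    integral_nonneg fun x => mul_nonneg (p0 _ (hσ.sub (hs _)) x).1 (Real.exp_pos _).le
  have h3 : 0 ≤ ∫ x, (dpC M H φ (s (j + 1)) (s (j + 1)) x).re * Real.exp (-w (j + 1) x) ∂M.mu H :=
    integral_nonneg fun x => mul_nonneg (p0 _ (hs _) x).2.2.1 (Real.exp_pos _).le
  simp only [hK, en, nr_pw, dp_re] at h1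
  exact ⟨s (j + 1), hs _, le_of_mul_le_mul_left (by linarith) hε,
    by linarith [mul_nonneg hε.le h2]⟩

end Pool.Agent.Lib.K70
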