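import Pool.Agent.Lib.KP.Kit
import Pool.Agent.Lib.EX.K19b
import Pool.Agent.Lib.ZL.B_PW
import Pool.Agent.Lib.ZL.B_UPB

/-! Project K2: the bundle of a divisor on the refined atlas. -/

open scoped Classical Topology ContDiff ComplexOrder Matrix ENNReal
open Set MeasureTheory Complex Metric Filter

set_option linter.unusedSectionVars false

noncomputable section

namespace Pool.Agent.Lib.K70

open Pool.Agent.Lib.SV (E)
open Pool.Agent.Lib.HS32 Pool.Agent.Lib.EX Pool.Agent.Lib.EXS Pool.Agent.Lib.ZL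
open Pool.Agent.Lib.EX.K19 (Ix)
open Pool.Agent.Lib.EXS.K32 (lv lm)

variable {n : ℕ} {M : Mf n} {ι : Type} [Fintype ι] [DecidableEq ι] (D : Ad M ι)

/-- The atlas of the small charts. -/
def rf : Mf n where
  X := M.X
  C := {e | e ∈ M.C ∧ ∃ a, e.source ⊆ (D.e a).source}
  cov x := let ⟨a, ha⟩ := GLU.ex_ch D x; ⟨D.e a, ⟨D.mem a, a, Subset.rfl⟩, ha⟩
  hol e he e' he' := M.hol e he.1 e' he'.1
  sat e he ψ h1 h2 := ⟨M.sat e he.1 ψ h1 h2,
    let ⟨a, ha⟩ := he.2; ⟨a, inter_subset_left.trans ha⟩⟩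

instance rf_cpt [h : M.Cpt] : (rf D).Cpt := ⟨h.t2, h.cpt, h.con⟩

theorem rf_ex [M.Cpt] (e : (rf D).Ch) : ∃ a, e ∈ (rf D).C → e.source ⊆ (D.e a).source := by
  by_cases h : e ∈ (rf D).C
  · obtain ⟨a, ha⟩ := h.2
    exact ⟨a, fun _ => ha⟩
  · obtain ⟨x⟩ : Nonempty M.X := inferInstance
    exact ⟨(GLU.ex_ch D x).choose, fun h' => absurd h' h⟩

variable [M.Cpt]

/-- The covering. -/
def ix : Ix (rf D) D.A :=
  ⟨D.e, fun a => ⟨D.mem a, a, Subset.rfl⟩, fun e => (rf_ex D e).choose,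
    fun e he => (rf_ex D e).choose_spec he⟩

theorem rf_kae {g : M.Fam (Mat n)} (h : M.Kae g) : (rf D).Kae g :=
  ⟨⟨⟨⟨fun e he => h.sm e he.1, fun e he e' he' => h.cmp e he.1 e' he'.1⟩,
    fun e he => h.herm e he.1⟩, fun e he => h.cl e he.1⟩, fun e he => h.pos e he.1⟩

theorem rf_sm {u : M.X → ℝ} (h : M.Sm u) : (rf D).Sm u := fun e he => h e he.1

theorem coc (P : ι → ℤ) : (ix D).Coc (D.um (-P)) :=
  ⟨(TRF.coc D (-P)).hol, (TRF.coc D (-P)).ne,
    fun a b c x h1 h2 h3 => (TRF.coc D (-P)).mul a b x h1 h2 c h3⟩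

theorem xm_tr (P : ι → ℤ) {a b : D.A} {x : M.X} (ha : x ∈ (D.e a).source)
    (hb : x ∈ (D.e b).source) :
    xm (D.c b) P (D.e b x) = xm (D.c a) P (D.e a x) * D.um (-P) a b x := by
  have h1 : D.um P a b x * D.um (-P) a b x = 1 := by
    simp only [Ad.um, ← Finset.prod_mul_distrib]
    exact Finset.prod_eq_one fun i _ => by
      rw [← zpow_add₀ (D.une a b i x ha hb), Pi.neg_apply, add_neg_cancel, zpow_zero]
  rw [TRF.xm_eq D ha hb P, mul_right_comm, h1, one_mul]

/-- The numerator of a function with poles. -/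
def nu (P : ι → ℤ) (G : M.X → ℂ) (a : D.A) (x : M.X) : ℂ := val (D.c a) P (D.rd G a) (D.e a x)

variable {D} {P : ι → ℤ} {G : M.X → ℂ} {a b : D.A} {x : M.X}

theorem val_sm {c : ι → Option (Fin n)} {F : E n → ℂ} {z : E n} (h : Pol c P F z) :
    ContDiffAt ℝ ∞ (val c P F) z ∧ (Off c z → val c P F z = xm c P z * F z) := by
  obtain ⟨s, s1, s2⟩ := h
  have e : val c P F =ᶠ[𝓝 z] s := by
    filter_upwards [s1, s2.eventually_nhds] with y a b using U11.val_eq a.continuousAt b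
  refine ⟨s1.self_of_nhds.congr_of_eventuallyEq e, fun ho => ?_⟩
  rw [e.eq_of_nhds, s2.self_of_nhds ho, MON.xm_neg, mul_inv_cancel_left₀ (MON.xm_ne P ho)]

theorem nu_off (h : D.All fun d z => Pol (D.c d) P (D.rd G d) z) (ha : x ∈ (D.e a).source)
    (ho : x ∈ off D) : nu D P G a x = xm (D.c a) P (D.e a x) * G x := by
  rw [nu, (val_sm (h a _ (TRF.mem_B D ha))).2 (ho a ha), Ad.rd, (D.e a).left_inv ha]

theorem nu_sm (h : D.All fun d z => Pol (D.c d) P (D.rd G d) z) (ha : x ∈ (D.e a).source) :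
    ContDiffAt ℝ ∞ (fun w => nu D P G a ((D.e a).symm w)) (D.e a x) :=
  (val_sm (h a _ (TRF.mem_B D ha))).1.congr_of_eventuallyEq
    ((isOpen_ball.eventually_mem (TRF.mem_B D ha)).mono fun w hw => by
      simp only [nu, TRF.rinv D hw])

theorem nu_cmp (h : D.All fun d z => Pol (D.c d) P (D.rd G d) z) (ha : x ∈ (D.e a).source)
    (hb : x ∈ (D.e b).source) : nu D P G b x = nu D P G a x * D.um (-P) a b x := by
  have := GLU.neBot D x
  have c1 : ContinuousAt (nu D P G b) x := GLU.cont_rd hb (nu_sm h hb).continuousAt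
  have c2 : ContinuousAt (fun y => nu D P G a y * D.um (-P) a b y) x :=
    (GLU.cont_rd (f := nu D P G a) ha (nu_sm h ha).continuousAt).mul
      (GLU.cont_rd (f := D.um (-P) a b) hb (TRF.um_hol D (-P) ha hb).self_of_nhds.continuousAt)
  refine tendsto_nhds_unique (c1.tendsto.mono_left (nhdsWithin_le_nhds (s := off D)))
    ((c2.tendsto.mono_left nhdsWithin_le_nhds).congr' ?_)
  filter_upwards [nhdsWithin_le_nhds ((D.e a).open_source.mem_nhds ha),
    nhdsWithin_le_nhds ((D.e b).open_source.mem_nhds hb), self_mem_nhdsWithin] with y h1 h2 h3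
  rw [nu_off h h1 h3, nu_off h h2 h3, xm_tr D P h1 h2]
  ring

theorem nu_sec (h : D.All fun d z => Pol (D.c d) P (D.rd G d) z) :
    (rf D).SecC (coc D P).co ((ix D).fam (nu D P G)) :=
  (coc D P).sec (fun _ _ hx => nu_sm h hx) fun _ _ _ h1 h2 => nu_cmp h h1 h2

/-- The section `s` is the numerator of `G`. -/
def Nm (D : Ad M ι) (P : ι → ℤ) (s : (rf D).Fam ℂ) (G : M.X → ℂ) : Prop :=
  ∀ e ∈ (rf D).C, ∀ x ∈ e.source, x ∈ off D →
    s e (e x) = xm (D.c ((ix D).ix e)) P (D.e ((ix D).ix e) x) * G x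

theorem nu_nm (h : D.All fun d z => Pol (D.c d) P (D.rd G d) z) :
    Nm D P ((ix D).fam (nu D P G)) G := fun e he x hx ho => by
  rw [Ix.fam_at _ hx, nu_off h ((ix D).sub e he hx) ho]

/-- From a section to a function with poles. -/
theorem ex_fun {s : (rf D).Fam ℂ} (hs : (rf D).SecC (coc D P).co s) :
    ∃ G, (D.All fun d z => Pol (D.c d) P (D.rd G d) z) ∧ Nm D P s G := by
  choose a ha using GLU.ex_ch D
  have k : ∀ d, ∀ x ∈ (D.e d).source, x ∈ off D →
      xm (D.c (a x)) (-P) (D.e (a x) x) * (ix D).un (D.um (-P)) s (a x) x =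
        xm (D.c d) (-P) (D.e d x) * (ix D).un (D.um (-P)) s d x := fun d x hx ho => by
    have h1 := (coc D P).un_cmp hs d (a x) hx (ha x)
    have h2 := xm_tr D P hx (ha x)
    have h3 := (coc D P).ne d (a x) x hx (ha x)
    have h4 := MON.xm_ne P (ho d hx)
    rw [h1, MON.xm_neg, MON.xm_neg, h2]
    field_simp
  refine ⟨fun x => xm (D.c (a x)) (-P) (D.e (a x) x) * (ix D).un (D.um (-P)) s (a x) x,
    fun d z hz => ⟨fun w => (ix D).un (D.um (-P)) s d ((D.e d).symm w), ?_, ?_⟩,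
    fun e he x hx ho => ?_⟩
  · filter_upwards [isOpen_ball.eventually_mem hz] with w hw
    have h1 := TRF.mem_src D (a := d) hw
    have : ContDiffAt ℝ ∞ (fun w => (ix D).un (D.um (-P)) s d ((D.e d).symm w))
        (D.e d ((D.e d).symm w)) :=
      (coc D P).un_sm (σ := s) (a := d) h1 (hs.sm _ ((ix D).mem d) _ ((D.e d).map_source h1))
    rwa [TRF.rinv D hw] at this
  · filter_upwards [isOpen_ball.eventually_mem hz] with w hw ho
    have h1 := TRF.mem_src D (a := d) hw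
    have := k d _ h1 ((GLU.mem_off h1).2 (by rwa [TRF.rinv D hw]))
    rwa [TRF.rinv D hw] at this
  · have h1 := (ix D).sub e he hx
    beta_reduce
    rw [k _ x h1 ho, (coc D P).un_eq hs he hx h1, (coc D P).self h1, MON.xm_neg, mul_one,
      mul_inv_cancel_left₀ (MON.xm_ne P (ho _ h1))]

end Pool.Agent.Lib.K70
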